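import Mathlib

/-!
# Symmetric cells of a closed permutation group: definitions

`G` is a closed group of permutations of the natural numbers. A finite set `C` is movable if for
every finite set `B` some involution in `G` exchanges `C` with a set outside `B` and fixes everything
else. A cell is a minimal nonempty movable set.
-/

set_option autoImplicit false

namespace Pool.H22.SY

open Function Set

/-- `G` is closed: a permutation which agrees on every finite set with a member of `G` is in `G` -/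
def Clo (G : Subgroup (Equiv.Perm ℕ)) : Prop :=
  ∀ g : Equiv.Perm ℕ, (∀ F : Finset ℕ, ∃ h ∈ G, ∀ x ∈ F, h x = g x) → g ∈ G

/-- `e` exchanges the set `C` with a disjoint set and fixes everything else -/
def IsSw (C : Finset ℕ) (e : Equiv.Perm ℕ) : Prop :=
  (∀ x, e (e x) = x) ∧ (∀ x ∈ C, e x ∉ C) ∧ ∀ x, x ∉ C → e x ∉ C → e x = x

open Classical in
/-- the involution `e` restricted to `A` and its image -/
noncomputable def rs (A : Finset ℕ) (e : Equiv.Perm ℕ) (he : ∀ x, e (e x) = x) :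
    Equiv.Perm ℕ where
  toFun x := if x ∈ A ∨ e x ∈ A then e x else x
  invFun x := if x ∈ A ∨ e x ∈ A then e x else x
  left_inv x := by
    by_cases h : x ∈ A ∨ e x ∈ A
    · simp only [if_pos h, he]
      rw [if_pos h.symm]
    · simp only [if_neg h]
  right_inv x := by
    by_cases h : x ∈ A ∨ e x ∈ A
    · simp only [if_pos h, he]
      rw [if_pos h.symm]
    · simp only [if_neg h]

/-- `C` is movable -/
def Mov (G : Subgroup (Equiv.Perm ℕ)) (C : Finset ℕ) : Prop :=
  ∀ B : Finset ℕ, ∃ e ∈ G, IsSw C e ∧ ∀ x ∈ C, e x ∉ B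

/-- `C` is a cell: a minimal nonempty movable set -/
def IsCell (G : Subgroup (Equiv.Perm ℕ)) (C : Finset ℕ) : Prop :=
  C.Nonempty ∧ Mov G C ∧ ∀ C' : Finset ℕ, C' ⊂ C → C'.Nonempty → ¬ Mov G C'

/-- `g` maps `S` onto `S'` and fixes everything outside `S` and `S'` -/
def Loc (g : Equiv.Perm ℕ) (S S' : Finset ℕ) : Prop :=
  S.image g = S' ∧ ∀ x, x ∉ S → x ∉ S' → g x = x

variable {G : Subgroup (Equiv.Perm ℕ)} {A B C S S' T : Finset ℕ} {e g : Equiv.Perm ℕ}

theorem rs_apply (he : ∀ x, e (e x) = x) (x : ℕ) :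
    rs A e he x = if x ∈ A ∨ e x ∈ A then e x else x := by
  classical
  show (if x ∈ A ∨ e x ∈ A then e x else x) = _
  congr

theorem rs_pos (he : ∀ x, e (e x) = x) {x : ℕ} (h : x ∈ A ∨ e x ∈ A) : rs A e he x = e x := by
  classical
  rw [rs_apply, if_pos h]

theorem rs_neg (he : ∀ x, e (e x) = x) {x : ℕ} (h : x ∉ A) (h' : e x ∉ A) :
    rs A e he x = x := by
  classical
  rw [rs_apply, if_neg (not_or.2 ⟨h, h'⟩)]

/-- the restriction of a swap is a swap -/
theorem IsSw.rs (h : IsSw C e) (hA : A ⊆ C) : IsSw A (rs A e h.1) := by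
  refine ⟨fun x => ?_, fun x hx => ?_, fun x hx hx' => ?_⟩
  · by_cases h1 : x ∈ A ∨ e x ∈ A
    · rw [rs_pos h.1 h1, rs_pos h.1 (by rw [h.1]; exact h1.symm), h.1]
    · rw [not_or] at h1
      rw [rs_neg h.1 h1.1 h1.2, rs_neg h.1 h1.1 h1.2]
  · rw [rs_pos h.1 (Or.inl hx)]
    exact fun h1 => h.2.1 x (hA hx) (hA h1)
  · by_cases h1 : e x ∈ A
    · rw [rs_pos h.1 (Or.inr h1)] at hx'
      exact absurd h1 hx'
    · exact rs_neg h.1 hx h1

theorem IsSw.fix (h : IsSw C e) {x : ℕ} (hx : x ∉ C) (hx' : ∀ y ∈ C, e y ≠ x) : e x = x := by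
  refine h.2.2 x hx fun h1 => ?_
  exact hx' _ h1 (h.1 x)

end Pool.H22.SY
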