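import Pool.Agent.H22.SY.Free

/-!
# Cellular groups: almost all points are in cells, finitely many classes of cells
-/

set_option autoImplicit false

namespace Pool.H22.SY

open Function Set

variable {G : Subgroup (Equiv.Perm ℕ)} {D : Set ℕ} {m : ℕ} {c q : ℕ → ℕ}

section blocks

variable (hc : ∀ y ∈ D, c y < m) (hinj : ∀ y ∈ D, ∀ y' ∈ D, c y = c y' → q y = q y' → y = y')

/-- the code set of the block `i` -/
def cs (D : Set ℕ) (c q : ℕ → ℕ) (i : ℕ) : Set ℕ := c '' {y | y ∈ D ∧ q y = i}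

include hc hinj in
theorem blk_finite (i : ℕ) : {y | y ∈ D ∧ q y = i}.Finite := by
  refine Set.Finite.of_finite_image (f := c) ((Set.finite_Iio m).subset ?_) ?_
  · rintro _ ⟨y, hy, rfl⟩
    exact hc y hy.1
  · rintro y hy y' hy' h
    exact hinj y hy.1 y' hy'.1 h (hy.2.trans hy'.2.symm)

open Classical in
/-- the point of the block `j` with the code of `x` -/
noncomputable def tr (D : Set ℕ) (c q : ℕ → ℕ) (j x : ℕ) : ℕ :=
  if h : ∃ y, (y ∈ D ∧ q y = j) ∧ c y = c x then h.choose else x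

theorem tr_spec {i j x : ℕ} (h : cs D c q i = cs D c q j) (hx : x ∈ D) (hi : q x = i) :
    (tr D c q j x ∈ D ∧ q (tr D c q j x) = j) ∧ c (tr D c q j x) = c x := by
  have h1 : c x ∈ cs D c q j := by
    rw [← h]
    exact ⟨x, ⟨hx, hi⟩, rfl⟩
  obtain ⟨y, hy, h2⟩ := h1
  have h3 : ∃ y, (y ∈ D ∧ q y = j) ∧ c y = c x := ⟨y, hy, h2⟩
  unfold tr
  rw [dif_pos h3]
  exact h3.choose_spec

include hinj in
/-- the swap of two blocks with the same codes -/
theorem blk_swap (hcell : ∀ g : Equiv.Perm ℕ, (∀ y, y ∉ D → g y = y) → (∀ y ∈ D, c (g y) = c y) →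
    (∀ y ∈ D, ∀ y' ∈ D, (q y = q y' ↔ q (g y) = q (g y'))) → g ∈ G)
    {i j : ℕ} (hij : i ≠ j) (h : cs D c q i = cs D c q j) :
    ∃ e ∈ G, (∀ x, e (e x) = x) ∧ (∀ x, x ∈ D → q x = i → (e x ∈ D ∧ q (e x) = j) ∧ c (e x) = c x) ∧
      (∀ x, x ∈ D → q x = j → (e x ∈ D ∧ q (e x) = i) ∧ c (e x) = c x) ∧
      ∀ x, ¬ (x ∈ D ∧ q x = i) → ¬ (x ∈ D ∧ q x = j) → e x = x := by
  classical
  let e0 : ℕ → ℕ := fun x => if x ∈ D ∧ q x = i then tr D c q j x else
    if x ∈ D ∧ q x = j then tr D c q i x else x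
  have e1 : ∀ x, x ∈ D → q x = i → (e0 x ∈ D ∧ q (e0 x) = j) ∧ c (e0 x) = c x := by
    intro x hx hi
    have : e0 x = tr D c q j x := if_pos ⟨hx, hi⟩
    rw [this]
    exact tr_spec h hx hi
  have e2 : ∀ x, x ∈ D → q x = j → (e0 x ∈ D ∧ q (e0 x) = i) ∧ c (e0 x) = c x := by
    intro x hx hj
    have h1 : ¬ (x ∈ D ∧ q x = i) := fun h2 => hij (h2.2.symm.trans hj)
    have : e0 x = tr D c q i x := (if_neg h1).trans (if_pos ⟨hx, hj⟩)
    rw [this]
    exact tr_spec h.symm hx hj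
  have e3 : ∀ x, ¬ (x ∈ D ∧ q x = i) → ¬ (x ∈ D ∧ q x = j) → e0 x = x := fun x h1 h2 =>
    (if_neg h1).trans (if_neg h2)
  have hinv : Involutive e0 := by
    intro x
    by_cases h1 : x ∈ D ∧ q x = i
    · obtain ⟨h2, h3⟩ := e1 x h1.1 h1.2
      obtain ⟨h4, h5⟩ := e2 _ h2.1 h2.2
      exact hinj _ h4.1 _ h1.1 (h5.trans h3) (h4.2.trans h1.2.symm)
    · by_cases h1' : x ∈ D ∧ q x = j
      · obtain ⟨h2, h3⟩ := e2 x h1'.1 h1'.2
        obtain ⟨h4, h5⟩ := e1 _ h2.1 h2.2
        exact hinj _ h4.1 _ h1'.1 (h5.trans h3) (h4.2.trans h1'.2.symm)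
      · rw [e3 x h1 h1', e3 x h1 h1']
  have hq : ∀ x ∈ D, q (e0 x) = Equiv.swap i j (q x) := by
    intro x hx
    by_cases h1 : q x = i
    · rw [(e1 x hx h1).1.2, h1, Equiv.swap_apply_left]
    · by_cases h2 : q x = j
      · rw [(e2 x hx h2).1.2, h2, Equiv.swap_apply_right]
      · rw [e3 x (fun h3 => h1 h3.2) (fun h3 => h2 h3.2), Equiv.swap_apply_of_ne_of_ne h1 h2]
  refine ⟨hinv.toPerm e0, hcell _ ?_ ?_ ?_, hinv, e1, e2, e3⟩
  · intro y hy
    exact e3 y (fun h1 => hy h1.1) fun h1 => hy h1.1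
  · intro y hy
    show c (e0 y) = c y
    by_cases h1 : q y = i
    · exact (e1 y hy h1).2
    · by_cases h2 : q y = j
      · exact (e2 y hy h2).2
      · rw [e3 y (fun h3 => h1 h3.2) fun h3 => h2 h3.2]
  · intro y hy y' hy'
    show _ ↔ q (e0 y) = q (e0 y')
    rw [hq y hy, hq y' hy', (Equiv.swap i j).injective.eq_iff]

end blocks

/-- representatives of finitely many classes -/
theorem exists_reps {α β : Type} (r : α → α → Prop) (hr : Equivalence r) (f : α → β) (F : Set β)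
    (hF : F.Finite) (hf : ∀ x, f x ∈ F) (h : ∀ x y, f x = f y → r x y) :
    ∃ (s : ℕ) (T : Fin s → α), (∀ x, ∃ j, r x (T j)) ∧ ∀ j j', r (T j) (T j') → j = j' := by
  classical
  letI st : Setoid α := ⟨r, hr⟩
  have hfin : Finite (Quotient st) := by
    have hF' : Finite F := hF
    refine Finite.of_injective (fun z : Quotient st => (⟨f z.out, hf _⟩ : F)) ?_
    intro z z' hz
    have h1 : f z.out = f z'.out := congrArg Subtype.val hz
    have h2 := Quotient.sound (s := st) (show st.r z.out z'.out from h _ _ h1)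
    rwa [Quotient.out_eq, Quotient.out_eq] at h2
  obtain ⟨s, ⟨E⟩⟩ := Finite.exists_equiv_fin (Quotient st)
  refine ⟨s, fun j => (E.symm j).out, fun x => ⟨E ⟦x⟧, ?_⟩, fun j j' hj => ?_⟩
  · have : (⟦x⟧ : Quotient st) = ⟦(E.symm (E ⟦x⟧)).out⟧ := by
      rw [Quotient.out_eq, Equiv.symm_apply_apply]
    exact Quotient.exact this
  · have h2 := Quotient.sound (s := st) (show st.r (E.symm j).out (E.symm j').out from hj)
    rw [Quotient.out_eq, Quotient.out_eq] at h2
    exact E.symm.injective h2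

/-- Cellular groups: almost all points are in cells, there are finitely many classes of cells. -/
theorem main (hG : Clo G) (hfix : ∀ g ∈ G, ∀ x, x ∉ D → g x = x) (hc : ∀ y ∈ D, c y < m)
    (hinj : ∀ y ∈ D, ∀ y' ∈ D, c y = c y' → q y = q y' → y = y')
    (hcell : ∀ g : Equiv.Perm ℕ, (∀ y, y ∉ D → g y = y) → (∀ y ∈ D, c (g y) = c y) →
      (∀ y ∈ D, ∀ y' ∈ D, (q y = q y' ↔ q (g y) = q (g y'))) → g ∈ G) :
    (∃ R : Set ℕ, R.Finite ∧ ∀ x ∈ D, x ∉ R → ∃ S, IsCell G S ∧ x ∈ S) ∧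
    (∀ S, IsCell G S → ∀ x ∈ S, x ∈ D) ∧
    ∃ (s : ℕ) (T : Fin s → Finset ℕ), (∀ j, IsCell G (T j)) ∧
      (∀ S, IsCell G S → ∃ j, ∃ g ∈ G, Loc g S (T j)) ∧
      ∀ j j', (∃ g ∈ G, Loc g (T j) (T j')) → j = j' := by
  classical
  have hsub : ∀ S, IsCell G S → ∀ x ∈ S, x ∈ D := by
    intro S hS x hx
    by_contra hcon
    obtain ⟨g, hg, h⟩ := hS.moved hx
    exact h (hfix g hg x hcon)
  -- movable blocks
  obtain ⟨Blk, hBlk⟩ : ∃ Blk : ℕ → Finset ℕ, ∀ i x, x ∈ Blk i ↔ x ∈ D ∧ q x = i :=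
    ⟨fun i => (blk_finite hc hinj i).toFinset, fun i x => by
      rw [Set.Finite.mem_toFinset]
      rfl⟩
  have hsw : ∀ i j, i ≠ j → cs D c q i = cs D c q j → ∃ e ∈ G, IsSw (Blk i) e ∧
      ∀ x ∈ Blk i, (e x ∈ D ∧ q (e x) = j) ∧ c (e x) = c x := by
    intro i j hij h
    obtain ⟨e, he, h1, h2, h3, h4⟩ := blk_swap (G := G) hinj hcell hij h
    refine ⟨e, he, ⟨h1, fun x hx hx' => ?_, fun x hx hx' => ?_⟩, fun x hx => ?_⟩
    · rw [hBlk] at hx hx'
      exact hij (hx'.2.symm.trans (h2 x hx.1 hx.2).1.2)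
    · rw [hBlk] at hx hx'
      refine h4 x hx fun h5 => ?_
      exact hx' (h3 x h5.1 h5.2).1
    · rw [hBlk] at hx
      exact h2 x hx.1 hx.2
  have hmov : ∀ i, {j | cs D c q j = cs D c q i}.Infinite → Mov G (Blk i) := by
    intro i hi B
    obtain ⟨j, hj, hj2⟩ := (hi.diff (((B.finite_toSet.image q).union (finite_singleton i)))).nonempty
    rw [mem_union, not_or, mem_singleton_iff] at hj2
    obtain ⟨e, he, h1, h2⟩ := hsw i j (Ne.symm hj2.2) hj.symm
    refine ⟨e, he, h1, fun x hx hB => hj2.1 ⟨e x, hB, (h2 x hx).1.2⟩⟩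
  -- the exceptional points
  obtain ⟨R, hR⟩ : ∃ R : Set ℕ, R = {y | y ∈ D ∧ {j | cs D c q j = cs D c q (q y)}.Finite} :=
    ⟨_, rfl⟩
  have hRf : R.Finite := by
    have hP : (𝒫 (Set.Iio m)).Finite := (Set.finite_Iio m).finite_subsets
    have h1 : R ⊆ ⋃ σ ∈ {σ ∈ 𝒫 (Set.Iio m) | {j | cs D c q j = σ}.Finite},
        ⋃ j ∈ {j | cs D c q j = σ}, {y | y ∈ D ∧ q y = j} := by
      intro y hy
      rw [hR] at hy
      simp only [mem_iUnion]
      refine ⟨cs D c q (q y), ⟨?_, hy.2⟩, q y, rfl, hy.1, rfl⟩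
      rintro _ ⟨z, hz, rfl⟩
      exact hc z hz.1
    refine Set.Finite.subset ?_ h1
    refine (hP.subset (sep_subset _ _)).biUnion fun σ hσ => ?_
    exact hσ.2.biUnion fun j _ => blk_finite hc hinj j
  have hcov : ∀ x ∈ D, x ∉ R → Mov G (Blk (q x)) := by
    intro x hx hxR
    apply hmov
    by_contra hcon
    rw [Set.not_infinite] at hcon
    apply hxR
    rw [hR]
    exact ⟨hx, hcon⟩
  refine ⟨⟨R, hRf, fun x hx hxR => ?_⟩, hsub, ?_⟩
  · obtain ⟨S, h1, h2, -⟩ := Mov.cell hG _ _ le_rfl (hcov x hx hxR) x ((hBlk _ _).2 ⟨hx, rfl⟩)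
    exact ⟨S, h1, h2⟩
  -- the classes
  let α := {S : Finset ℕ // IsCell G S}
  let r : α → α → Prop := fun S S' => ∃ g ∈ G, Loc g S.1 S'.1
  have hr : Equivalence r := by
    refine ⟨fun S => ⟨1, G.one_mem, Loc.one⟩, ?_, ?_⟩
    · rintro S S' ⟨g, hg, hl⟩
      exact ⟨g⁻¹, G.inv_mem hg, hl.inv⟩
    · rintro S S' S'' ⟨g, hg, hl⟩ ⟨h, hh, hl'⟩
      obtain ⟨k, hk, hk2, -⟩ := hl.comp hG S.2 hg hh hl'
      exact ⟨k, hk, hk2⟩
  -- a key of a cell
  have hpt : ∀ S : α, ∃ x, x ∈ S.1 ∧ ((∃ y ∈ S.1, y ∈ R) → x ∈ R) := by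
    intro S
    by_cases h : ∃ y ∈ S.1, y ∈ R
    · obtain ⟨y, hy, hyR⟩ := h
      exact ⟨y, hy, fun _ => hyR⟩
    · obtain ⟨x, hx⟩ := S.2.1
      exact ⟨x, hx, fun h' => absurd h' h⟩
  choose pt hpt1 hpt2 using hpt
  let f : α → Option ℕ × (Set ℕ × Set ℕ) := fun S =>
    (if pt S ∈ R then some (pt S) else none, cs D c q (q (pt S)), c '' (S.1 : Set ℕ))
  obtain ⟨s, T, hT1, hT2⟩ := exists_reps r hr f
    (((some '' R) ∪ {none}) ×ˢ ((𝒫 (Set.Iio m)) ×ˢ (𝒫 (Set.Iio m))))
    (((hRf.image _).union (finite_singleton _)).prod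
      (((Set.finite_Iio m).finite_subsets).prod ((Set.finite_Iio m).finite_subsets)))
    (by
      intro S
      refine ⟨?_, ?_, ?_⟩
      · show (if pt S ∈ R then some (pt S) else none) ∈ (some '' R) ∪ {none}
        by_cases h : pt S ∈ R
        · rw [if_pos h]
          exact Or.inl ⟨_, h, rfl⟩
        · rw [if_neg h]
          exact Or.inr rfl
      · rintro _ ⟨z, hz, rfl⟩
        exact hc z hz.1
      · rintro _ ⟨z, hz, rfl⟩
        exact hc z (hsub S.1 S.2 z hz))
    (by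
      intro S S' hSS
      have h1 : (if pt S ∈ R then some (pt S) else none) =
        (if pt S' ∈ R then some (pt S') else none) := congrArg Prod.fst hSS
      have h2 : cs D c q (q (pt S)) = cs D c q (q (pt S')) :=
        congrArg (fun z : Option ℕ × (Set ℕ × Set ℕ) => z.2.1) hSS
      have h3 : c '' (S.1 : Set ℕ) = c '' (S'.1 : Set ℕ) :=
        congrArg (fun z : Option ℕ × (Set ℕ × Set ℕ) => z.2.2) hSS
      by_cases hR1 : pt S ∈ R
      · rw [if_pos hR1] at h1
        by_cases hR2 : pt S' ∈ R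
        · rw [if_pos hR2, Option.some_inj] at h1
          have h4 : S.1 = S'.1 := S.2.eq_of_mem hG S'.2 (hpt1 S) (h1 ▸ hpt1 S')
          exact ⟨1, G.one_mem, by rw [← h4]; exact Loc.one⟩
        · rw [if_neg hR2] at h1
          exact absurd h1 (by simp)
      · rw [if_neg hR1] at h1
        have hR2 : pt S' ∉ R := by
          intro h
          rw [if_pos h] at h1
          exact absurd h1 (by simp)
        -- both are inside blocks
        have hin : ∀ S : α, pt S ∉ R → Mov G (Blk (q (pt S))) ∧ S.1 ⊆ Blk (q (pt S)) := by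
          intro S h
          have hD := hsub S.1 S.2 _ (hpt1 S)
          have h5 := hcov _ hD h
          exact ⟨h5, S.2.subset_of_mov hG h5
            ⟨pt S, Finset.mem_inter.2 ⟨hpt1 S, (hBlk _ _).2 ⟨hD, rfl⟩⟩⟩⟩
        obtain ⟨m1, i1⟩ := hin S hR1
        obtain ⟨m2, i2⟩ := hin S' hR2
        by_cases hqq : q (pt S) = q (pt S')
        · -- the same block
          have h4 : S.1 = S'.1 := by
            ext y
            constructor
            · intro hy
              have h6 : c y ∈ c '' (S'.1 : Set ℕ) := by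
                rw [← h3]
                exact ⟨y, hy, rfl⟩
              obtain ⟨z, hz, hzc⟩ := h6
              have hyB := (hBlk _ _).1 (i1 hy)
              have hzB := (hBlk _ _).1 (i2 hz)
              have : y = z := hinj _ hyB.1 _ hzB.1 hzc.symm (hyB.2.trans (hqq.trans hzB.2.symm))
              exact this ▸ hz
            · intro hy
              have h6 : c y ∈ c '' (S.1 : Set ℕ) := by
                rw [h3]
                exact ⟨y, hy, rfl⟩
              obtain ⟨z, hz, hzc⟩ := h6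
              have hyB := (hBlk _ _).1 (i2 hy)
              have hzB := (hBlk _ _).1 (i1 hz)
              have : y = z := hinj _ hyB.1 _ hzB.1 hzc.symm
                (hyB.2.trans (hqq.symm.trans hzB.2.symm))
              exact this ▸ hz
          exact ⟨1, G.one_mem, by rw [← h4]; exact Loc.one⟩
        · obtain ⟨e, he, hs, h5⟩ := hsw _ _ hqq h2
          have heS : ∀ x ∈ Blk (q (pt S)), e x ∉ S.1 := fun x hx h6 => hs.2.1 x hx (i1 h6)
          have h6 := key hG m1 S.2.2.1 he hs heS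
          have h7 : Blk (q (pt S)) ∩ S.1 = S.1 := Finset.inter_eq_right.2 i1
          rw [h7] at h6
          refine ⟨_, h6, ?_⟩
          have h8 := (hs.rs i1).loc
          have h9 : S.1.image (rs S.1 e hs.1) = S'.1 := by
            ext y
            rw [Finset.mem_image]
            constructor
            · rintro ⟨x, hx, rfl⟩
              rw [rs_pos hs.1 (Or.inl hx)]
              obtain ⟨⟨k1, k2⟩, k3⟩ := h5 x (i1 hx)
              have h10 : c x ∈ c '' (S'.1 : Set ℕ) := by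
                rw [← h3]
                exact ⟨x, hx, rfl⟩
              obtain ⟨z, hz, hzc⟩ := h10
              have hzB := (hBlk _ _).1 (i2 hz)
              have : e x = z := hinj _ k1 _ hzB.1 (k3.trans hzc.symm) (k2.trans hzB.2.symm)
              rw [this]
              exact hz
            · intro hy
              have h10 : c y ∈ c '' (S.1 : Set ℕ) := by
                rw [h3]
                exact ⟨y, hy, rfl⟩
              obtain ⟨z, hz, hzc⟩ := h10
              refine ⟨z, hz, ?_⟩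
              rw [rs_pos hs.1 (Or.inl hz)]
              obtain ⟨⟨k1, k2⟩, k3⟩ := h5 z (i1 hz)
              have hyB := (hBlk _ _).1 (i2 hy)
              exact hinj _ k1 _ hyB.1 (k3.trans hzc) (k2.trans hyB.2.symm)
          rw [h9] at h8
          exact h8)
  refine ⟨s, fun j => (T j).1, fun j => (T j).2, fun S hS => ?_, fun j j' h => hT2 j j' h⟩
  exact hT1 ⟨S, hS⟩

end Pool.H22.SY
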