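import Pool.Agent.H22.SY.Cell

/-!
# Admissible matchings of cells
-/

set_option autoImplicit false

namespace Pool.H22.SY

open Function Set

variable {G : Subgroup (Equiv.Perm ℕ)} {A B C S S' S'' T : Finset ℕ}
  {e g h t d f P : Equiv.Perm ℕ}

theorem p1 (g : Equiv.Perm ℕ) (y : ℕ) : g (g⁻¹ y) = y := g.apply_symm_apply y

theorem p2 (g : Equiv.Perm ℕ) (y : ℕ) : g⁻¹ (g y) = y := g.symm_apply_apply y

theorem Loc.maps (hl : Loc g S S') {x : ℕ} (hx : x ∈ S) : g x ∈ S' := by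
  rw [← hl.1]
  exact Finset.mem_image_of_mem g hx

theorem Loc.inv (hl : Loc g S S') : Loc g⁻¹ S' S := by
  refine ⟨?_, fun x hx hx' => ?_⟩
  · ext y
    rw [← hl.1]
    simp only [Finset.mem_image]
    constructor
    · rintro ⟨z, ⟨w, hw, rfl⟩, rfl⟩
      rwa [p2]
    · intro hy
      exact ⟨g y, ⟨y, hy, rfl⟩, p2 g y⟩
  · rw [Equiv.Perm.inv_eq_iff_eq]
    exact (hl.2 x hx' hx).symm

theorem Loc.one : Loc 1 S S := ⟨by simp, fun x _ _ => rfl⟩

theorem Loc.conj (hl : Loc g S S') (P : Equiv.Perm ℕ) :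
    Loc (P * g * P⁻¹) (S.image P) (S'.image P) := by
  refine ⟨?_, fun x hx hx' => ?_⟩
  · ext y
    simp only [Finset.mem_image]
    constructor
    · rintro ⟨z, ⟨w, hw, rfl⟩, rfl⟩
      refine ⟨g w, hl.maps hw, ?_⟩
      show P (g w) = P (g (P⁻¹ (P w)))
      rw [p2]
    · rintro ⟨z, hz, rfl⟩
      rw [← hl.1] at hz
      obtain ⟨w, hw, rfl⟩ := Finset.mem_image.1 hz
      refine ⟨P w, ⟨w, hw, rfl⟩, ?_⟩
      show P (g (P⁻¹ (P w))) = P (g w)
      rw [p2]
  · show P (g (P⁻¹ x)) = x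
    have h1 : ∀ {U : Finset ℕ}, x ∉ U.image P → P⁻¹ x ∉ U := by
      intro U h2 h3
      exact h2 (Finset.mem_image.2 ⟨_, h3, p1 P x⟩)
    rw [hl.2 _ (h1 hx) (h1 hx'), p1]

/-- a swap is local -/
theorem IsSw.loc (hs : IsSw C e) : Loc e C (C.image e) := by
  refine ⟨rfl, fun x hx hx' => hs.2.2 x hx fun h => hx' ?_⟩
  exact Finset.mem_image.2 ⟨e x, h, hs.1 x⟩

/-- admissible matchings can be composed -/
theorem Loc.comp (hG : Clo G) (hS : IsCell G S) (hg : g ∈ G) (hl : Loc g S S') (hh : h ∈ G)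
    (hl' : Loc h S' S'') : ∃ k ∈ G, Loc k S S'' ∧ ∀ x ∈ S, k x = h (g x) := by
  have hS' : IsCell G S' := hl.1 ▸ hS.image hg
  have hS'' : IsCell G S'' := hl'.1 ▸ hS'.image hh
  have himg : (S.image fun x => h (g x)) = S'' := by
    rw [← hl'.1, ← hl.1, Finset.image_image]
    rfl
  by_cases h1 : S' = S
  · subst h1
    refine ⟨h * g, G.mul_mem hh hg, ⟨himg, fun x hx hx' => ?_⟩, fun x _ => rfl⟩
    show h (g x) = x
    rw [hl.2 x hx hx, hl'.2 x hx hx']
  by_cases h2 : S'' = S'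
  · subst h2
    refine ⟨h * g, G.mul_mem hh hg, ⟨himg, fun x hx hx' => ?_⟩, fun x _ => rfl⟩
    show h (g x) = x
    rw [hl.2 x hx hx', hl'.2 x hx' hx']
  have hd : ∀ x ∈ S, x ∉ S' := fun x hx hx' => h1 (hS'.eq_of_mem hG hS hx' hx)
  have hd' : ∀ x ∈ S', x ∉ S'' := fun x hx hx' => h2 (hS''.eq_of_mem hG hS' hx' hx)
  by_cases h3 : S'' = S
  · -- the finitary argument
    subst h3
    have hmap : ∀ x, h (g x) ∈ S'' ↔ x ∈ S'' := by
      intro x
      constructor
      · intro hx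
        have h4 : h (g x) ∈ S''.image fun x => h (g x) := by rw [himg]; exact hx
        obtain ⟨y, hy, h5⟩ := Finset.mem_image.1 h4
        have h6 : y = x := g.injective (h.injective h5)
        exact h6 ▸ hy
      · intro hx
        rw [← himg]
        exact Finset.mem_image_of_mem _ hx
    classical
    set k : Equiv.Perm ℕ := Equiv.Perm.ofSubtype
      ((h * g).subtypePerm (p := fun x => x ∈ S'') hmap) with hk
    have k1 : ∀ x ∈ S'', k x = h (g x) := fun x hx => by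
      rw [hk, Equiv.Perm.ofSubtype_apply_of_mem _ hx]
      rfl
    have k2 : ∀ x, x ∉ S'' → k x = x := fun x hx => by
      rw [hk, Equiv.Perm.ofSubtype_apply_of_not_mem _ hx]
    have hkG : k ∈ G := by
      refine hG _ fun F => ?_
      obtain ⟨v, hv, hsv, hv1⟩ := hS'.2.1 (F ∪ S'')
      have v1 : ∀ x, x ∉ S' → x ∈ F ∪ S'' → v x = x := by
        intro x hx hx'
        refine hsv.2.2 x hx fun h4 => ?_
        have := hv1 _ h4
        rw [hsv.1] at this
        exact this hx'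
      refine ⟨v * (h * g) * v, G.mul_mem (G.mul_mem hv (G.mul_mem hh hg)) hv, fun x hxF => ?_⟩
      show v (h (g (v x))) = k x
      by_cases hx : x ∈ S''
      · rw [k1 x hx, v1 x (hd x hx) (Finset.mem_union_right _ hx)]
        have h4 := (hmap x).2 hx
        exact v1 _ (hd _ h4) (Finset.mem_union_right _ h4)
      · rw [k2 x hx]
        by_cases hx' : x ∈ S'
        · have h4 : v x ∉ S' := hsv.2.1 x hx'
          have h5 : v x ∉ S'' := fun h6 => hv1 x hx' (Finset.mem_union_right _ h6)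
          rw [hl.2 _ h5 h4, hl'.2 _ h4 h5, hsv.1]
        · rw [v1 x hx' (Finset.mem_union_left _ hxF), hl.2 _ hx hx', hl'.2 _ hx' hx]
          exact v1 x hx' (Finset.mem_union_left _ hxF)
    refine ⟨k, hkG, ⟨?_, fun x hx _ => k2 x hx⟩, k1⟩
    ext y
    constructor
    · intro hy
      obtain ⟨z, hz, rfl⟩ := Finset.mem_image.1 hy
      rw [k1 z hz]
      exact (hmap z).2 hz
    · intro hy
      have hy2 : y ∈ S''.image fun x => h (g x) := by rw [himg]; exact hy
      obtain ⟨z, hz, rfl⟩ := Finset.mem_image.1 hy2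
      exact Finset.mem_image.2 ⟨z, hz, k1 z hz⟩
  · -- three different cells
    have hd'' : ∀ x ∈ S, x ∉ S'' := fun x hx hx' => h3 (hS''.eq_of_mem hG hS hx' hx)
    have ginv : ∀ x ∈ S'', g⁻¹ x = x := fun x hx =>
      hl.inv.2 x (fun h4 => hd' x h4 hx) fun h4 => hd'' x h4 hx
    have hkx : ∀ x ∈ S, g⁻¹ (h (g x)) = h (g x) := fun x hx => ginv _ (hl'.maps (hl.maps hx))
    refine ⟨g⁻¹ * h * g, G.mul_mem (G.mul_mem (G.inv_mem hg) hh) hg, ⟨?_, fun x hx hx' => ?_⟩,
      fun x hx => hkx x hx⟩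
    · conv_rhs => rw [← himg]
      exact Finset.image_congr fun x hx => hkx x hx
    · show g⁻¹ (h (g x)) = x
      by_cases hx1 : x ∈ S'
      · have h4 : g x ∉ S' := by
          intro h4
          rw [← hl.1] at h4
          obtain ⟨y, hy, h5⟩ := Finset.mem_image.1 h4
          exact hx (g.injective h5 ▸ hy)
        have h5 : g x ∉ S'' := by
          intro h5
          have h6 := hl.2 (g x) (fun h7 => hd'' _ h7 h5) h4
          exact hx' (g.injective h6 ▸ h5)
        rw [hl'.2 _ h4 h5, p2]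
      · rw [hl.2 x hx hx1, hl'.2 x hx1 hx']
        exact hl.inv.2 x hx1 hx

end Pool.H22.SY
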