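import Pool.Agent.H22.SY.Key

/-!
# Cells are disjoint and cover the movable sets
-/

set_option autoImplicit false

namespace Pool.H22.SY

open Function Set

variable {G : Subgroup (Equiv.Perm ℕ)} {A B C S S' T : Finset ℕ} {e g t d f : Equiv.Perm ℕ}

theorem IsCell.subset_of_mov (hG : Clo G) (hS : IsCell G S) (hC : Mov G C)
    (h : (S ∩ C).Nonempty) : S ⊆ C := by
  by_contra hcon
  refine hS.2.2 (S ∩ C) ?_ h (hS.2.1.inter hG hC)
  refine ⟨Finset.inter_subset_left, fun h1 => hcon fun x hx => ?_⟩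
  exact (Finset.mem_inter.1 (h1 hx)).2

theorem IsCell.eq_of_inter (hG : Clo G) (hS : IsCell G S) (hT : IsCell G T)
    (h : (S ∩ T).Nonempty) : S = T :=
  Finset.Subset.antisymm (hS.subset_of_mov hG hT.2.1 h)
    (hT.subset_of_mov hG hS.2.1 (by rwa [Finset.inter_comm]))

theorem IsCell.eq_of_mem (hG : Clo G) (hS : IsCell G S) (hT : IsCell G T) {x : ℕ}
    (h : x ∈ S) (h' : x ∈ T) : S = T :=
  hS.eq_of_inter hG hT ⟨x, Finset.mem_inter.2 ⟨h, h'⟩⟩

/-- the points of a movable set are in cells -/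
theorem Mov.cell (hG : Clo G) : ∀ (n : ℕ) (C : Finset ℕ), C.card ≤ n → Mov G C → ∀ x ∈ C,
    ∃ S, IsCell G S ∧ x ∈ S ∧ S ⊆ C := by
  intro n
  induction n with
  | zero =>
    intro C hC _ x hx
    rw [Nat.le_zero, Finset.card_eq_zero] at hC
    rw [hC] at hx
    exact absurd hx (Finset.notMem_empty x)
  | succ n ih =>
    intro C hC hM x hx
    by_cases h : IsCell G C
    · exact ⟨C, h, hx, Finset.Subset.refl C⟩
    · have h1 : ∃ C' : Finset ℕ, C' ⊂ C ∧ C'.Nonempty ∧ Mov G C' := by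
        by_contra hcon
        push Not at hcon
        exact h ⟨⟨x, hx⟩, hM, hcon⟩
      obtain ⟨C', h2, h3, h4⟩ := h1
      by_cases hx' : x ∈ C'
      · obtain ⟨S, k1, k2, k3⟩ := ih C' (by
          have := Finset.card_lt_card h2
          omega) h4 x hx'
        exact ⟨S, k1, k2, k3.trans h2.1⟩
      · obtain ⟨S, k1, k2, k3⟩ := ih (C \ C') (by
          have e1 := Finset.card_sdiff_add_card_inter C C'
          have e2 : C ∩ C' = C' := Finset.inter_eq_right.2 h2.1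
          rw [e2] at e1
          have e3 : 0 < C'.card := Finset.card_pos.2 h3
          omega) (hM.sdiff hG h4) x (Finset.mem_sdiff.2 ⟨hx, hx'⟩)
        exact ⟨S, k1, k2, k3.trans Finset.sdiff_subset⟩

/-- the image of a swap -/
theorem IsSw.conj (h : IsSw C e) (g : Equiv.Perm ℕ) : IsSw (C.image g) (g * e * g⁻¹) := by
  have e1 : ∀ y, g (g⁻¹ y) = y := g.apply_symm_apply
  have e2 : ∀ y, g⁻¹ (g y) = y := g.symm_apply_apply
  have hm : ∀ y, y ∈ C.image g ↔ g⁻¹ y ∈ C := by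
    intro y
    rw [Finset.mem_image]
    constructor
    · rintro ⟨z, hz, rfl⟩
      rwa [e2]
    · intro hy
      exact ⟨_, hy, e1 y⟩
  refine ⟨fun x => ?_, fun x hx => ?_, fun x hx hx' => ?_⟩
  · show g (e (g⁻¹ (g (e (g⁻¹ x))))) = x
    rw [e2, h.1, e1]
  · rw [hm] at hx ⊢
    show g⁻¹ (g (e (g⁻¹ x))) ∉ C
    rw [e2]
    exact h.2.1 _ hx
  · rw [hm] at hx hx'
    have hx2 : e (g⁻¹ x) ∉ C := by
      have : g⁻¹ (g (e (g⁻¹ x))) ∉ C := hx'
      rwa [e2] at this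
    show g (e (g⁻¹ x)) = x
    rw [h.2.2 _ hx hx2, e1]

theorem Mov.image (hg : g ∈ G) (hC : Mov G C) : Mov G (C.image g) := by
  intro B
  obtain ⟨e, he, hs, h1⟩ := hC (B.image (g⁻¹ : Equiv.Perm ℕ))
  refine ⟨g * e * g⁻¹, G.mul_mem (G.mul_mem hg he) (G.inv_mem hg), hs.conj g, fun x hx h => ?_⟩
  obtain ⟨y, hy, rfl⟩ := Finset.mem_image.1 hx
  have e2 : ∀ y, g⁻¹ (g y) = y := g.symm_apply_apply
  have h2 : g (e (g⁻¹ (g y))) ∈ B := h
  rw [e2] at h2
  refine h1 y hy (Finset.mem_image.2 ⟨_, h2, e2 _⟩)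

theorem IsCell.image (hg : g ∈ G) (hS : IsCell G S) : IsCell G (S.image g) := by
  refine ⟨hS.1.image g, hS.2.1.image hg, fun C' hC' hne hM => ?_⟩
  have e1 : ∀ y, g (g⁻¹ y) = y := g.apply_symm_apply
  have e2 : ∀ y, g⁻¹ (g y) = y := g.symm_apply_apply
  have hsub : C'.image (g⁻¹ : Equiv.Perm ℕ) ⊆ S := by
    intro y hy
    obtain ⟨z, hz, rfl⟩ := Finset.mem_image.1 hy
    obtain ⟨w, hw, rfl⟩ := Finset.mem_image.1 (hC'.1 hz)
    rwa [e2]
  refine hS.2.2 (C'.image (g⁻¹ : Equiv.Perm ℕ)) ⟨hsub, fun h => ?_⟩ (hne.image _)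
    (hM.image (G.inv_mem hg))
  apply hC'.2
  intro y hy
  obtain ⟨z, hz, rfl⟩ := Finset.mem_image.1 hy
  obtain ⟨w, hw, hwz⟩ := Finset.mem_image.1 (h hz)
  rw [← hwz, e1]
  exact hw

/-- a cell consists of points moved by `G` -/
theorem IsCell.moved (hS : IsCell G S) {x : ℕ} (hx : x ∈ S) : ∃ g ∈ G, g x ≠ x := by
  obtain ⟨e, he, hs, h1⟩ := hS.2.1 ∅
  exact ⟨e, he, fun h => hs.2.1 x hx (h.symm ▸ hx)⟩

end Pool.H22.SY
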