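import Pool.Agent.H22.SY.Adm

/-!
# Independent moves of cells
-/

set_option autoImplicit false

namespace Pool.H22.SY

open Function Set

variable {G : Subgroup (Equiv.Perm ℕ)} {A B C S S' S'' T : Finset ℕ}
  {e g h t d f P : Equiv.Perm ℕ}

/-- `P` is admissible on all cells -/
def Reg (G : Subgroup (Equiv.Perm ℕ)) (P : Equiv.Perm ℕ) : Prop :=
  ∀ U, IsCell G U → ∃ h ∈ G, Loc h U (U.image P) ∧ ∀ x ∈ U, h x = P x

theorem reg_one : Reg G 1 := fun U _ => ⟨1, G.one_mem, by simpa using Loc.one, fun x _ => rfl⟩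

/-- a local map is admissible on all cells -/
theorem Loc.reg (hG : Clo G) (hS : IsCell G S) (hk : g ∈ G) (hl : Loc g S S') : Reg G g := by
  have hS' : IsCell G S' := hl.1 ▸ hS.image hk
  intro U hU
  by_cases h1 : U = S
  · subst h1
    exact ⟨g, hk, by rw [hl.1]; exact hl, fun x _ => rfl⟩
  by_cases h2 : U = S'
  · subst h2
    have himg : U.image g = S := by
      apply Finset.eq_of_subset_of_card_le
      · intro y hy
        obtain ⟨x, hx, rfl⟩ := Finset.mem_image.1 hy
        by_contra hcon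
        have hxS : x ∉ S := fun h3 => h1 (hU.eq_of_mem hG hS hx h3)
        by_cases h4 : g x ∈ U
        · rw [← hl.1] at h4
          obtain ⟨z, hz, h5⟩ := Finset.mem_image.1 h4
          exact hxS (g.injective h5 ▸ hz)
        · have h5 := hl.2 (g x) hcon h4
          have h6 := g.injective h5
          exact h4 (h6.symm ▸ hx)
      · rw [Finset.card_image_of_injective _ g.injective, ← hl.1,
          Finset.card_image_of_injective _ g.injective]
    refine ⟨g, hk, ⟨rfl, fun x hx hx' => ?_⟩, fun x _ => rfl⟩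
    rw [himg] at hx'
    exact hl.2 x hx' hx
  · have hfix : ∀ x ∈ U, g x = x := fun x hx =>
      hl.2 x (fun h3 => h1 (hU.eq_of_mem hG hS hx h3)) fun h3 => h2 (hU.eq_of_mem hG hS' hx h3)
    refine ⟨1, G.one_mem, ⟨?_, fun x _ _ => rfl⟩, fun x hx => (hfix x hx).symm⟩
    exact Finset.image_congr fun x hx => (hfix x hx).symm

theorem Reg.mul (hG : Clo G) (hP : Reg G P) (hPG : P ∈ G) (hk : Reg G g) : Reg G (g * P) := by
  intro U hU
  obtain ⟨h1, hh1, hl1, he1⟩ := hP U hU
  obtain ⟨h2, hh2, hl2, he2⟩ := hk _ (hU.image hPG)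
  obtain ⟨k, hk1, hk2, hk3⟩ := hl1.comp hG hU hh1 hh2 hl2
  refine ⟨k, hk1, ?_, fun x hx => ?_⟩
  · have e1 : U.image (g * P) = (U.image P).image g := by
      rw [Finset.image_image]
      rfl
    rw [e1]
    exact hk2
  · rw [hk3 x hx, he1 x hx, he2 _ (Finset.mem_image_of_mem P hx)]
    rfl

/-- Finitely many cells can be moved independently; the points outside all cells are fixed. -/
theorem free' {ι : Type} (hG : Clo G) (s : Finset ι) (S S' : ι → Finset ℕ)
    (g : ι → Equiv.Perm ℕ) (hS : ∀ i ∈ s, IsCell G (S i)) (hg : ∀ i ∈ s, g i ∈ G)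
    (hl : ∀ i ∈ s, Loc (g i) (S i) (S' i)) (hi : ∀ i ∈ s, ∀ j ∈ s, S i = S j → i = j)
    (hi' : ∀ i ∈ s, ∀ j ∈ s, S' i = S' j → i = j) :
    ∃ P ∈ G, Reg G P ∧ (∀ i ∈ s, ∀ x ∈ S i, P x = g i x) ∧
      ∀ x, (∀ U, IsCell G U → x ∉ U) → P x = x := by
  classical
  induction s using Finset.induction_on with
  | empty => exact ⟨1, G.one_mem, reg_one, fun i hi => absurd hi (Finset.notMem_empty i),
      fun x _ => rfl⟩
  | @insert i s his ih =>
    obtain ⟨P, hPG, hPR, hP, hPf⟩ := ih (fun j hj => hS j (Finset.mem_insert_of_mem hj))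
      (fun j hj => hg j (Finset.mem_insert_of_mem hj))
      (fun j hj => hl j (Finset.mem_insert_of_mem hj))
      (fun j hj l hl => hi j (Finset.mem_insert_of_mem hj) l (Finset.mem_insert_of_mem hl))
      (fun j hj l hl => hi' j (Finset.mem_insert_of_mem hj) l (Finset.mem_insert_of_mem hl))
    have hii := Finset.mem_insert_self i s
    have hSi := hS i hii
    obtain ⟨h1, hh1, hl1, he1⟩ := hPR _ hSi
    have hU : IsCell G ((S i).image P) := hSi.image hPG
    obtain ⟨k, hk1, hk2, hk3⟩ := hl1.inv.comp hG hU (G.inv_mem hh1) (hg i hii) (hl i hii)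
    have hS'i0 : IsCell G (S' i) := (hl i hii).1 ▸ hSi.image (hg i hii)
    refine ⟨k * P, G.mul_mem hk1 hPG, hPR.mul hG hPG (hk2.reg hG hU hk1), fun j hj x hx => ?_,
      fun x hx => ?_⟩
    swap
    · show k (P x) = x
      rw [hPf x hx]
      exact hk2.2 x (hx _ hU) (hx _ hS'i0)
    show k (P x) = g j x
    rcases Finset.mem_insert.1 hj with rfl | hj'
    · rw [hk3 _ (Finset.mem_image_of_mem P hx)]
      congr 1
      rw [← he1 x hx, p2]
    · have hji : j ≠ i := fun h => his (h ▸ hj')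
      have hSj := hS j hj
      have e1 : P x = g j x := hP j hj' x hx
      have hS'j : IsCell G (S' j) := (hl j hj).1 ▸ hSj.image (hg j hj)
      have hS'i : IsCell G (S' i) := (hl i hii).1 ▸ hSi.image (hg i hii)
      have hm : g j x ∈ S' j := (hl j hj).maps hx
      rw [e1]
      refine hk2.2 _ (fun h2 => ?_) fun h2 => ?_
      · obtain ⟨z, hz, h3⟩ := Finset.mem_image.1 h2
        rw [← e1] at h3
        have h4 := P.injective h3
        subst h4
        exact hji (hi j hj i hii (hSj.eq_of_mem hG hSi hx hz))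
      · exact hji (hi' j hj i hii (hS'j.eq_of_mem hG hS'i hm h2))

/-- Finitely many cells can be moved independently. -/
theorem free {ι : Type} (hG : Clo G) (s : Finset ι) (S S' : ι → Finset ℕ)
    (g : ι → Equiv.Perm ℕ) (hS : ∀ i ∈ s, IsCell G (S i)) (hg : ∀ i ∈ s, g i ∈ G)
    (hl : ∀ i ∈ s, Loc (g i) (S i) (S' i)) (hi : ∀ i ∈ s, ∀ j ∈ s, S i = S j → i = j)
    (hi' : ∀ i ∈ s, ∀ j ∈ s, S' i = S' j → i = j) :
    ∃ P ∈ G, Reg G P ∧ ∀ i ∈ s, ∀ x ∈ S i, P x = g i x := by
  obtain ⟨P, h1, h2, h3, -⟩ := free' hG s S S' g hS hg hl hi hi'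
  exact ⟨P, h1, h2, h3⟩

/-- NAMES: a member of `G` which fixes a cell of the class of `S` is admissible on `S`. -/
theorem names (hG : Clo G) (hP : P ∈ G) (hfix : ∀ x ∈ T, P x = x) (hS : IsCell G S)
    (hg : g ∈ G) (hl : Loc g S T) :
    ∃ k ∈ G, Loc k S (S.image P) ∧ ∀ x ∈ S, k x = P x := by
  have hT : T.image P = T := by
    conv_rhs => rw [← Finset.image_id (s := T)]
    exact Finset.image_congr fun x hx => hfix x hx
  have hfix' : ∀ x ∈ T, P⁻¹ x = x := fun x hx => by
    rw [Equiv.Perm.inv_eq_iff_eq]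
    exact (hfix x hx).symm
  have hl2 := (hl.conj P).inv
  rw [hT] at hl2
  obtain ⟨k, hk1, hk2, hk3⟩ := hl.comp hG hS hg
    (G.inv_mem (G.mul_mem (G.mul_mem hP hg) (G.inv_mem hP))) hl2
  refine ⟨k, hk1, hk2, fun x hx => ?_⟩
  rw [hk3 x hx, Equiv.Perm.inv_eq_iff_eq]
  show g x = P (g (P⁻¹ (P x)))
  rw [p2, hfix _ (hl.maps hx)]

end Pool.H22.SY
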