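import Pool.Agent.H22.SY.Def

/-!
# The intersection of two movable sets is movable
-/

set_option autoImplicit false

namespace Pool.H22.SY

open Function Set

variable {G : Subgroup (Equiv.Perm ℕ)} {A B C S S' T : Finset ℕ} {e g t d f : Equiv.Perm ℕ}

/-- `t` swaps `T`, `d` swaps `C`, and `d C` is disjoint from `T` and `t T`, `t T` is disjoint from
`C`: the product `t d t d` is the cycle `A → t A → d A → A`, `A = C ∩ T`. -/
private theorem zact (ht : IsSw T t) (hd : IsSw C d) (h1 : ∀ x ∈ C, d x ∉ T)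
    (h2 : ∀ x ∈ C, t (d x) ∉ T) (h3 : ∀ x ∈ T, t x ∉ C) (h4 : ∀ x ∈ T, d (t x) ∉ C) (x : ℕ) :
    t (d (t (d x))) = if x ∈ C ∩ T then t x else if t x ∈ C ∩ T then d (t x) else
      if d x ∈ C ∩ T then d x else x := by
  have f1 : ∀ x ∈ C, t (d x) = d x := fun x hx => ht.2.2 _ (h1 x hx) (h2 x hx)
  have f2 : ∀ x ∈ T, d (t x) = t x := fun x hx => hd.2.2 _ (h3 x hx) (h4 x hx)
  have f3 : ∀ x ∈ C, x ∉ T → t x = x := fun x hx hxT => ht.2.2 _ hxT fun h => by
    have := h3 _ h
    rw [ht.1] at this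
    exact this hx
  simp only [Finset.mem_inter]
  by_cases hx : x ∈ C
  · rw [f1 x hx, hd.1]
    by_cases hxT : x ∈ T
    · rw [if_pos ⟨hx, hxT⟩]
    · rw [f3 x hx hxT]
      simp [hxT, hd.2.1 x hx]
  · rw [if_neg (fun h => hx h.1)]
    by_cases hdx : d x ∈ C
    · have e1 : d (d x) = x := hd.1 x
      by_cases hdT : d x ∈ T
      · rw [f2 _ hdT, ht.1]
        have e2 : t x = x := by
          have := f1 _ hdx
          rwa [e1] at this
        rw [e2, if_neg (fun h => hx h.1), if_pos ⟨hdx, hdT⟩]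
      · rw [f3 _ hdx hdT, e1]
        have e2 : t x = x := by
          have := f1 _ hdx
          rwa [e1] at this
        rw [e2, if_neg (fun h => hx h.1), if_neg (fun h => hdT h.2)]
    · have e1 : d x = x := hd.2.2 x hx hdx
      rw [e1]
      by_cases hy : t x ∈ C
      · have hyT : t x ∈ T := by
          by_contra hc
          have := f3 _ hy hc
          rw [ht.1] at this
          exact hx (this ▸ hy)
        rw [if_pos ⟨hy, hyT⟩, f1 _ hy]
      · rw [if_neg (fun h => hy h.1), if_neg (fun h => hx h.1)]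
        have e2 : d (t x) = t x := by
          refine hd.2.2 _ hy fun h => ?_
          have h5 := f1 _ h
          rw [hd.1, ht.1] at h5
          rw [← h5] at h
          exact hdx h
        rw [e2, ht.1]

/-- KEY: `C`, `T` movable, `e ∈ G` a swap of `C` with `e C` disjoint from `T`: the restriction of `e`
to `C ∩ T` is in `G`. -/
theorem key (hG : Clo G) (hC : Mov G C) (hT : Mov G T) (he : e ∈ G) (hs : IsSw C e)
    (heT : ∀ x ∈ C, e x ∉ T) : rs (C ∩ T) e hs.1 ∈ G := by
  classical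
  refine hG _ fun F => ?_
  obtain ⟨t, htG, ht, ht1⟩ := hT (C ∪ C.image e)
  obtain ⟨d, hdG, hd, hd1⟩ := hC (T ∪ T.image t ∪ C.image e ∪ F)
  obtain ⟨f, hfG, hf, hf1⟩ := hC (T ∪ T.image t ∪ C.image e ∪ C.image d ∪ F)
  have t1 : ∀ x ∈ T, t x ∉ C := fun x hx h => ht1 x hx (Finset.mem_union_left _ h)
  have t2 : ∀ x ∈ T, ∀ y ∈ C, e y ≠ t x := fun x hx y hy h =>
    ht1 x hx (Finset.mem_union_right _ (Finset.mem_image.2 ⟨y, hy, h⟩))
  have tT : ∀ {z y : ℕ}, t z ∈ T → z ∉ T → y = z → ∃ w ∈ T, t w = y := by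
    rintro z y h1 h2 rfl
    exact ⟨t y, h1, ht.1 y⟩
  -- the sets `e C`, `d C`, `f C` are disjoint from `T`, `t T`
  have he2 : ∀ x ∈ C, t (e x) ∉ T := fun x hx h => by
    have h5 := t2 _ h x hx
    rw [ht.1] at h5
    exact h5 rfl
  have d1 : ∀ x ∈ C, d x ∉ T := fun x hx h => hd1 x hx (by simp [h])
  have d2 : ∀ x ∈ C, t (d x) ∉ T := fun x hx h => hd1 x hx (by
    have : d x ∈ T.image t := Finset.mem_image.2 ⟨t (d x), h, ht.1 _⟩
    simp [this])
  have d3 : ∀ x ∈ C, ∀ y ∈ C, e y ≠ d x := fun x hx y hy h => hd1 x hx (by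
    have : d x ∈ C.image e := Finset.mem_image.2 ⟨y, hy, h⟩
    simp only [Finset.mem_union]
    tauto)
  have d4 : ∀ x ∈ C, d x ∉ F := fun x hx h => hd1 x hx (by simp [h])
  have f1 : ∀ x ∈ C, f x ∉ T := fun x hx h => hf1 x hx (by simp [h])
  have f2 : ∀ x ∈ C, t (f x) ∉ T := fun x hx h => hf1 x hx (by
    have : f x ∈ T.image t := Finset.mem_image.2 ⟨t (f x), h, ht.1 _⟩
    simp [this])
  have f3 : ∀ x ∈ C, ∀ y ∈ C, d y ≠ f x := fun x hx y hy h => hf1 x hx (by
    have : f x ∈ C.image d := Finset.mem_image.2 ⟨y, hy, h⟩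
    simp only [Finset.mem_union]
    tauto)
  have f4 : ∀ x ∈ C, f x ∉ F := fun x hx h => hf1 x hx (by simp [h])
  have hx4 : ∀ {u : Equiv.Perm ℕ}, IsSw C u → (∀ x ∈ C, t (u x) ∉ T) → ∀ x ∈ T, u (t x) ∉ C := by
    intro u hu h5 x hx h6
    have h7 := h5 _ h6
    rw [hu.1, ht.1] at h7
    exact h7 hx
  have zd := zact ht hd d1 d2 t1 (hx4 hd d2)
  have zf := zact ht hf f1 f2 t1 (hx4 hf f2)
  have ze := zact ht hs heT he2 t1 (hx4 hs he2)
  set A := C ∩ T with hA
  have hAC : ∀ {x}, x ∈ A → x ∈ C := fun h => (Finset.mem_inter.1 h).1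
  have hAT : ∀ {x}, x ∈ A → x ∈ T := fun h => (Finset.mem_inter.1 h).2
  -- the inverse of `z_d`
  have zi : ∀ x, d (t (d (t x))) = if x ∈ A then d x else if t x ∈ A then t x else
      if d x ∈ A then t (d x) else x := by
    intro x
    have key2 : ∀ y, t (d (t (d y))) = x → d (t (d (t x))) = y := by
      rintro y rfl
      rw [ht.1, hd.1, ht.1, hd.1]
    by_cases h1 : x ∈ A
    · rw [if_pos h1]
      refine key2 _ ?_
      rw [zd, hd.1]
      rw [if_neg (fun h => hd.2.1 x (hAC h1) (hAC h))]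
      have e2 : t (d x) = d x := ht.2.2 _ (d1 x (hAC h1)) (d2 x (hAC h1))
      rw [e2, if_neg (fun h => hd.2.1 x (hAC h1) (hAC h)), if_pos h1]
    · rw [if_neg h1]
      by_cases h2 : t x ∈ A
      · rw [if_pos h2]
        refine key2 _ ?_
        rw [zd, if_pos h2, ht.1]
      · rw [if_neg h2]
        by_cases h3 : d x ∈ A
        · rw [if_pos h3]
          refine key2 _ ?_
          rw [zd, ht.1]
          rw [if_neg (fun h => t1 _ (hAT h3) (hAC h)), if_pos h3, hd.1]
        · rw [if_neg h3]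
          refine key2 _ ?_
          rw [zd, if_neg h1, if_neg h2, if_neg h3]
  refine ⟨(t * e * t * e) * (d * t * d * t) * (t * f * t * f) * (d * t * d * t),
    G.mul_mem (G.mul_mem (G.mul_mem (G.mul_mem (G.mul_mem (G.mul_mem htG he) htG) he)
      (G.mul_mem (G.mul_mem (G.mul_mem hdG htG) hdG) htG))
      (G.mul_mem (G.mul_mem (G.mul_mem htG hfG) htG) hfG))
      (G.mul_mem (G.mul_mem (G.mul_mem hdG htG) hdG) htG), fun x hxF => ?_⟩
  show t (e (t (e (d (t (d (t (t (f (t (f (d (t (d (t x))))))))))))))) = rs A e hs.1 x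
  by_cases h1 : x ∈ A
  · rw [rs_pos hs.1 (Or.inl h1), zi x, if_pos h1]
    have n1 : d x ∉ A := fun h => hd.2.1 x (hAC h1) (hAC h)
    have n2 : t (d x) = d x := ht.2.2 _ (d1 x (hAC h1)) (d2 x (hAC h1))
    have n3 : f (d x) = d x := by
      refine hf.2.2 _ (hd.2.1 x (hAC h1)) fun h => ?_
      exact f3 _ h x (hAC h1) (hf.1 _).symm
    rw [zf, if_neg n1, n2, if_neg n1, n3, if_neg n1]
    rw [zi, if_neg n1, n2, if_neg n1, hd.1, if_pos h1]
    rw [ze, ht.1, if_pos h1, if_neg (fun h => t1 _ (hAT h1) (hAC h))]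
  · by_cases h2 : e x ∈ A
    · rw [rs_pos hs.1 (Or.inr h2)]
      have hex : e (e x) = x := hs.1 x
      have n1 : t x = x := by
        have := ht.2.2 _ (heT _ (hAC h2)) (he2 _ (hAC h2))
        rwa [hex] at this
      have hxC : x ∉ C := by
        have := hs.2.1 _ (hAC h2)
        rwa [hex] at this
      have n2 : d x = x := by
        refine hd.2.2 _ hxC fun h => ?_
        have := d3 _ h (e x) (hAC h2)
        rw [hex, hd.1] at this
        exact this rfl
      have n3 : f x ∉ A := by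
        intro h
        have hfx : f x ∈ C := hAC h
        have := hf1 _ hfx
        rw [hf.1] at this
        apply this
        have h5 : x ∈ C.image e := Finset.mem_image.2 ⟨e x, hAC h2, hex⟩
        simp only [Finset.mem_union]
        tauto
      have z1 : d (t (d (t x))) = x := by
        rw [zi, if_neg h1, n1, if_neg h1, n2, if_neg h1]
      rw [z1, zf, if_neg h1, n1, if_neg h1, if_neg n3]
      rw [z1, ze, if_neg h1, n1, if_neg h1, if_pos h2]
    · rw [rs_neg hs.1 h1 h2]
      have hdx : d x ∉ A := by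
        intro h
        have := d4 _ (hAC h)
        rw [hd.1] at this
        exact this hxF
      have hfx : f x ∉ A := by
        intro h
        have := f4 _ (hAC h)
        rw [hf.1] at this
        exact this hxF
      by_cases h3 : t x ∈ A
      · have z1 : d (t (d (t x))) = t x := by
          rw [zi, if_neg h1, if_pos h3]
        have z2 : t (f (t (f (t x)))) = x := by
          rw [zf, if_pos h3, ht.1]
        rw [z1, z2, z1, ze, if_pos h3, ht.1]
      · have z1 : d (t (d (t x))) = x := by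
          rw [zi, if_neg h1, if_neg h3, if_neg hdx]
        have z2 : t (f (t (f x))) = x := by
          rw [zf, if_neg h1, if_neg h3, if_neg hfx]
        rw [z1, z2, z1, ze, if_neg h1, if_neg h3, if_neg h2]

/-- the intersection is movable -/
theorem Mov.inter (hG : Clo G) (hC : Mov G C) (hT : Mov G T) : Mov G (C ∩ T) := by
  intro B
  obtain ⟨e, he, hs, h1⟩ := hC (B ∪ T)
  refine ⟨_, key hG hC hT he hs fun x hx h => h1 x hx (Finset.mem_union_right _ h),
    hs.rs Finset.inter_subset_left, fun x hx h => ?_⟩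
  rw [rs_pos hs.1 (Or.inl hx)] at h
  exact h1 x (Finset.mem_inter.1 hx).1 (Finset.mem_union_left _ h)

/-- the restriction to the difference -/
theorem key_sdiff (hG : Clo G) (hC : Mov G C) (hT : Mov G T) (he : e ∈ G) (hs : IsSw C e)
    (heT : ∀ x ∈ C, e x ∉ T) : rs (C \ T) e hs.1 ∈ G := by
  have h1 : rs (C \ T) e hs.1 = e * rs (C ∩ T) e hs.1 := by
    ext x
    show rs (C \ T) e hs.1 x = e (rs (C ∩ T) e hs.1 x)
    by_cases h2 : x ∈ C ∩ T ∨ e x ∈ C ∩ T
    · rw [rs_pos hs.1 h2, hs.1]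
      apply rs_neg
      · rw [Finset.mem_sdiff]
        rintro ⟨h3, h4⟩
        rcases h2 with h2 | h2
        · exact h4 (Finset.mem_inter.1 h2).2
        · exact hs.2.1 x h3 (Finset.mem_inter.1 h2).1
      · rw [Finset.mem_sdiff]
        rintro ⟨h3, h4⟩
        rcases h2 with h2 | h2
        · exact hs.2.1 x (Finset.mem_inter.1 h2).1 h3
        · exact h4 (Finset.mem_inter.1 h2).2
    · rw [not_or] at h2
      rw [rs_neg hs.1 h2.1 h2.2]
      by_cases h3 : x ∈ C \ T ∨ e x ∈ C \ T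
      · rw [rs_pos hs.1 h3]
      · rw [not_or] at h3
        rw [rs_neg hs.1 h3.1 h3.2]
        symm
        refine hs.2.2 x ?_ ?_
        · intro h4
          by_cases h5 : x ∈ T
          · exact h2.1 (Finset.mem_inter.2 ⟨h4, h5⟩)
          · exact h3.1 (Finset.mem_sdiff.2 ⟨h4, h5⟩)
        · intro h4
          by_cases h5 : e x ∈ T
          · exact h2.2 (Finset.mem_inter.2 ⟨h4, h5⟩)
          · exact h3.2 (Finset.mem_sdiff.2 ⟨h4, h5⟩)
  rw [h1]
  exact G.mul_mem he (key hG hC hT he hs heT)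

/-- the difference is movable -/
theorem Mov.sdiff (hG : Clo G) (hC : Mov G C) (hT : Mov G T) : Mov G (C \ T) := by
  intro B
  obtain ⟨e, he, hs, h1⟩ := hC (B ∪ T)
  refine ⟨_, key_sdiff hG hC hT he hs fun x hx h => h1 x hx (Finset.mem_union_right _ h),
    hs.rs Finset.sdiff_subset, fun x hx h => ?_⟩
  rw [rs_pos hs.1 (Or.inl hx)] at h
  exact h1 x (Finset.mem_sdiff.1 hx).1 (Finset.mem_union_left _ h)

end Pool.H22.SY
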